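import Mathlib
import Pool.Agent.Helper41.PX.Defs
import Pool.Agent.Helper64.CX.Peel

set_option autoImplicit false

/-! # Bridge: the bound for `Cfg j` gives the union form on every set of `j` vertices -/

namespace Pool.Agent.Helper50.CX

open Finset
open scoped BigOperators
open Pool.Agent.Helper41.PX (mu Conf Cov un PairOn KK UB edges)

lemma mu_eq_card {Z : Type*} [Fintype Z] (P : Z → Prop) [DecidablePred P] :
    mu P = ((univ.filter P).card : ℝ) / Fintype.card Z := by
  unfold mu
  rw [Fintype.expect_eq_sum_div_card]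
  congr 1
  rw [Finset.card_filter, Nat.cast_sum]
  refine Finset.sum_congr rfl fun z _ => ?_
  by_cases h : P z <;> simp [h]

lemma mu_nonneg {Z : Type*} [Fintype Z] (P : Z → Prop) : 0 ≤ mu P := by
  classical
  rw [mu_eq_card]; positivity

lemma mu_le_one {Z : Type*} [Fintype Z] (P : Z → Prop) : mu P ≤ 1 := by
  classical
  rw [mu_eq_card]
  refine div_le_one_of_le₀ ?_ (Nat.cast_nonneg _)
  exact_mod_cast card_le_univ _

variable {V : Type*} [Fintype V] [DecidableEq V]

/-- projection of a configuration to the recursive form, along an enumeration -/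
def proj {j : ℕ} (f : Fin j → V) (A : Conf V) : Helper64.CX.Cfg j :=
  Helper64.CX.enc j (fun a b => A s(f a, f b))

lemma mu_le_card {j : ℕ} (S : Finset V) (hS : S.card = j) (f : Fin j → V)
    (hf : ∀ a ∈ S, ∃ i, f i = a) (F : Conf V → Prop) (P : Conf V → Helper64.CX.Cfg j)
    (hP : ∀ A B, P A = P B → ∀ a b, a < b → A s(f a, f b) = B s(f a, f b))
    (F' : Finset (Helper64.CX.Cfg j)) (hF' : ∀ A, F A → P A ∈ F') :
    mu F ≤ (F'.card : ℝ) / 2 ^ (j.choose 2) := by
  classical
  rw [mu_eq_card]
  have hE : (edges S).card = j.choose 2 := by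
    rw [← hS, ← Sym2.card_image_offDiag S]; rfl
  have hcard : Fintype.card (Conf V) = 2 ^ (j.choose 2) * 2 ^ ((edges S)ᶜ.card) := by
    rw [← pow_add, ← hE, card_add_card_compl]
    simp [Conf]
  have hmem : ∀ A B : Conf V, P A = P B → ∀ e ∈ edges S, A e = B e := by
    intro A B h e he
    obtain ⟨p, hp, rfl⟩ := mem_image.1 he
    obtain ⟨h1, h2, h3⟩ := mem_offDiag.1 hp
    obtain ⟨i, hi⟩ := hf _ h1
    obtain ⟨l, hl⟩ := hf _ h2
    have hne : i ≠ l := fun h4 => h3 (by rw [← hi, ← hl, h4])
    rcases lt_or_gt_of_ne hne with h4 | h4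
    · have := hP A B h i l h4
      rwa [hi, hl] at this
    · have := hP A B h l i h4
      rw [hi, hl, Sym2.eq_swap] at this
      exact this
  have hle : (univ.filter F).card ≤ F'.card * 2 ^ ((edges S)ᶜ.card) := by
    have h1 : Fintype.card ({e // e ∈ (edges S)ᶜ} → Bool) = 2 ^ ((edges S)ᶜ.card) := by
      rw [Fintype.card_fun, Fintype.card_bool, Fintype.card_coe]
    have h2 : (F' ×ˢ (univ : Finset ({e // e ∈ (edges S)ᶜ} → Bool))).card
        = F'.card * 2 ^ ((edges S)ᶜ.card) := by
      rw [card_product, card_univ, h1]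
    rw [← h2]
    refine card_le_card_of_injOn (fun A => (P A, fun e => A e.1)) ?_ ?_
    · intro A hA
      exact mem_coe.2 (mem_product.2 ⟨hF' A (mem_filter.1 (mem_coe.1 hA)).2, mem_univ _⟩)
    · intro A _ B _ h
      obtain ⟨h3, h4⟩ := Prod.ext_iff.1 h
      funext e
      by_cases he : e ∈ edges S
      · exact hmem A B h3 e he
      · exact congrFun h4 ⟨e, mem_compl.2 he⟩
  rw [hcard, div_le_div_iff₀ (by positivity) (by positivity)]
  have h5 : ((univ.filter F).card : ℝ) ≤ F'.card * 2 ^ ((edges S)ᶜ.card) := by exact_mod_cast hle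
  push_cast
  calc ((univ.filter F).card : ℝ) * 2 ^ (j.choose 2)
      ≤ (F'.card * 2 ^ ((edges S)ᶜ.card)) * 2 ^ (j.choose 2) :=
        mul_le_mul_of_nonneg_right h5 (by positivity)
    _ = _ := by ring

/-- the bound for `Cfg j` gives the union form on every set of `j` vertices -/
theorem UB_of_Bound (k j : ℕ) (h : Helper64.CX.Bound k j (KK k)) (S : Finset V)
    (hS : S.card = j) : UB k S := by
  classical
  intro F H hFH
  rcases Nat.eq_zero_or_pos k with hk0 | hk0
  · have hKK : KK k = 1 := by rw [hk0]; norm_num [KK]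
    rw [hKK]
    exact mul_le_one₀ (mu_le_one F) (mu_nonneg H) (mu_le_one H)
  let g : Fin j ≃ {x // x ∈ S} := (Fintype.equivFinOfCardEq (by rw [Fintype.card_coe, hS])).symm
  let f : Fin j → V := fun i => (g i).1
  have hf : ∀ a ∈ S, ∃ i, f i = a := fun a ha => ⟨g.symm ⟨a, ha⟩, by simp [f]⟩
  let F' : Finset (Helper64.CX.Cfg j) :=
    univ.filter (fun z => ∃ A, F A ∧ proj f A = z)
  let H' : Finset (Helper64.CX.Cfg j) :=
    univ.filter (fun z => ∃ A, H A ∧ proj f (fun e => !A e) = z)
  have hc : Helper64.CX.Cross k j F' H' := by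
    intro z hz w hw
    obtain ⟨A, hA, rfl⟩ := (mem_filter.1 hz).2
    obtain ⟨C, hC, rfl⟩ := (mem_filter.1 hw).2
    rintro ⟨c, hcol⟩
    rw [proj, proj, Helper64.CX.Pr_enc] at hcol
    have key : ∀ i l, i ≠ l → c i = c l → un A C s(f i, f l) = true := by
      intro i l hil hcc
      have : A s(f i, f l) = !C s(f i, f l) := by
        rcases lt_or_gt_of_ne hil with h1 | h1
        · by_contra hne
          exact hcol i l h1 hne hcc
        · by_contra hne
          have hne' : A s(f l, f i) ≠ !C s(f l, f i) := by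
            rwa [Sym2.eq_swap]
          exact hcol l i h1 hne' hcc.symm
      simp only [un, this]
      cases C s(f i, f l) <;> rfl
    refine hFH A C hA hC ⟨fun x => if hx : x ∈ S then c (g.symm ⟨x, hx⟩) else ⟨0, hk0⟩, ?_⟩
    intro a ha b hb hab hr
    simp only [ha, hb, dif_pos] at hr
    have h2 := key (g.symm ⟨a, ha⟩) (g.symm ⟨b, hb⟩) (fun h3 => hab (by
      have := g.symm.injective h3
      exact congrArg Subtype.val this)) hr
    simpa [f] using h2
  have h1 := h F' H' hc
  have h2 := mu_le_card S hS f hf F (proj f) (fun A B hAB => Helper64.CX.enc_eq j _ _ hAB) F'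
    (fun A hA => mem_filter.2 ⟨mem_univ _, A, hA, rfl⟩)
  have h3 := mu_le_card S hS f hf H (fun A => proj f (fun e => !A e))
    (fun A B hAB a b hab => by
      have := Helper64.CX.enc_eq j _ _ hAB a b hab
      simpa using this) H'
    (fun A hA => mem_filter.2 ⟨mem_univ _, A, hA, rfl⟩)
  calc mu F * mu H ≤ ((F'.card : ℝ) / 2 ^ (j.choose 2)) * ((H'.card : ℝ) / 2 ^ (j.choose 2)) :=
        mul_le_mul h2 h3 (mu_nonneg _) (by positivity)
    _ = ((F'.card : ℝ) * H'.card) / (2 ^ (j.choose 2)) ^ 2 := by field_simp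
    _ ≤ KK k := by
        rw [div_le_iff₀ (by positivity)]
        exact h1

end Pool.Agent.Helper50.CX
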