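import Mathlib

set_option autoImplicit false

/-! # Sums inside a union of star spaces

Two families `F`, `G` of edge sets on `n = t + 1` vertices (`t ≥ 4`) such that every symmetric
difference `A ∆ B` (`A ∈ F`, `B ∈ G`) is contained in a star satisfy `|F| |G| ≤ 4 ^ t`. -/

namespace Pool.Agent.Helper50.CX

open Finset
open scoped symmDiff

variable {V : Type*} [Fintype V] [DecidableEq V]

/-- the star at `v` -/
def St (v : V) : Finset (Sym2 V) := (univ.erase v).image (fun w => s(v, w))

lemma mem_St {v : V} {e : Sym2 V} : e ∈ St v ↔ v ∈ e ∧ ¬ e.IsDiag := by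
  unfold St
  rw [mem_image]
  constructor
  · rintro ⟨w, hw, rfl⟩
    refine ⟨Sym2.mem_mk_left _ _, ?_⟩
    rw [Sym2.mk_isDiag_iff]
    exact (ne_of_mem_erase hw).symm
  · rintro ⟨hv, hd⟩
    obtain ⟨w, rfl⟩ := hv
    refine ⟨w, mem_erase.2 ⟨?_, mem_univ _⟩, rfl⟩
    intro hwv
    exact hd (by rw [hwv]; exact Sym2.mk_isDiag_iff.2 rfl)

lemma card_St (v : V) : (St v).card = Fintype.card V - 1 := by
  unfold St
  rw [card_image_of_injective, card_erase_of_mem (mem_univ _), card_univ]
  intro a b hab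
  have hab' : s(v, a) = s(v, b) := hab
  rw [Sym2.eq_iff] at hab'
  rcases hab' with h | h
  · exact h.2
  · rw [h.2, ← h.1]

lemma St_inter {v w : V} (h : v ≠ w) : St v ∩ St w ⊆ {s(v, w)} := by
  intro e he
  rw [mem_inter, mem_St, mem_St] at he
  rw [mem_singleton]
  exact (Sym2.mem_and_mem_iff h).1 ⟨he.1.1, he.2.1⟩

lemma card_le_diff {E : Type*} [DecidableEq E] (S : Finset (Finset E)) (T : Finset E)
    (h : ∀ A ∈ S, ∀ B ∈ S, A ∆ B ⊆ T) : S.card ≤ 2 ^ T.card := by
  rcases S.eq_empty_or_nonempty with rfl | ⟨A, hA⟩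
  · simp
  · rw [← card_powerset]
    refine card_le_card_of_injOn (fun B => A ∆ B) (fun B hB => ?_) ?_
    · exact mem_coe.2 (mem_powerset.2 (h A hA B hB))
    · intro B _ C _ hBC
      exact symmDiff_right_injective A hBC

lemma tri {E : Type*} [DecidableEq E] {A B C T : Finset E} (h1 : A ∆ B ⊆ T) (h2 : A ∆ C ⊆ T) :
    B ∆ C ⊆ T := by
  intro e he
  by_cases hb : e ∈ A ∆ B
  · exact h1 hb
  · refine h2 ?_
    rw [mem_symmDiff] at he hb ⊢
    tauto

lemma cov {E : Type*} [DecidableEq E] {A A' B : Finset E} {e : E} (he : e ∈ A ∆ A') :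
    e ∈ A ∆ B ∨ e ∈ A' ∆ B := by
  rw [mem_symmDiff] at he ⊢
  rw [mem_symmDiff]
  tauto

lemma cov2 {E : Type*} [DecidableEq E] {A C B : Finset E} {e : E} (he : e ∈ A ∆ C)
    (h : e ∉ A ∆ B) : e ∈ C ∆ B := (cov he).resolve_left h

/-- elements of `F` whose difference with `B` lies in the star of `v` -/
lemma card_coset (F : Finset (Finset (Sym2 V))) (B : Finset (Sym2 V)) (v : V) :
    (F.filter (fun A => B ∆ A ⊆ St v)).card ≤ 2 ^ (Fintype.card V - 1) := by
  rw [← card_St v]
  refine card_le_diff _ _ fun A hA A' hA' => ?_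
  exact tri (mem_filter.1 hA).2 (mem_filter.1 hA').2

/-- two cosets of different stars meet in at most two elements -/
lemma card_two (F : Finset (Finset (Sym2 V))) (B C : Finset (Sym2 V)) {v w : V} (h : v ≠ w) :
    (F.filter (fun A => B ∆ A ⊆ St v ∧ C ∆ A ⊆ St w)).card ≤ 2 := by
  have h1 := card_le_diff (F.filter (fun A => B ∆ A ⊆ St v ∧ C ∆ A ⊆ St w)) {s(v, w)} ?_
  · simpa using h1
  · intro A hA A' hA'
    refine Subset.trans (subset_inter ?_ ?_) (St_inter h)
    · exact tri (mem_filter.1 hA).2.1 (mem_filter.1 hA').2.1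
    · exact tri (mem_filter.1 hA).2.2 (mem_filter.1 hA').2.2

/-- elements of `F` whose difference with `B` contains `e` -/
lemma card_edge (F : Finset (Finset (Sym2 V))) (B : Finset (Sym2 V))
    (h : ∀ A ∈ F, ∃ v, B ∆ A ⊆ St v) (e : Sym2 V) :
    (F.filter (fun A => e ∈ B ∆ A)).card ≤ 2 * 2 ^ (Fintype.card V - 1 - 1) := by
  induction e using Sym2.ind with
  | _ x y =>
    have key : ∀ u : V, (F.filter (fun A => s(x, y) ∈ B ∆ A ∧ B ∆ A ⊆ St u)).card
        ≤ 2 ^ (Fintype.card V - 1 - 1) := by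
      intro u
      rcases (F.filter (fun A => s(x, y) ∈ B ∆ A ∧ B ∆ A ⊆ St u)).eq_empty_or_nonempty with
        h0 | ⟨A0, hA0⟩
      · rw [h0]; simp
      · have hmem : s(x, y) ∈ St u := (mem_filter.1 hA0).2.2 (mem_filter.1 hA0).2.1
        rw [← card_St u, ← card_erase_of_mem hmem]
        refine card_le_diff _ _ fun A hA A' hA' => ?_
        intro e he
        have h1 := (mem_filter.1 hA).2
        have h2 := (mem_filter.1 hA').2
        refine mem_erase.2 ⟨?_, tri h1.2 h2.2 he⟩
        rintro rfl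
        have h3 := h1.1
        have h4 := h2.1
        clear h1 h2
        rw [mem_symmDiff] at h3 h4 he
        clear hA hA' hA0 hmem h
        tauto
    have hsub : F.filter (fun A => s(x, y) ∈ B ∆ A) ⊆
        F.filter (fun A => s(x, y) ∈ B ∆ A ∧ B ∆ A ⊆ St x) ∪
        F.filter (fun A => s(x, y) ∈ B ∆ A ∧ B ∆ A ⊆ St y) := by
      intro A hA
      obtain ⟨hA1, hA2⟩ := mem_filter.1 hA
      obtain ⟨v, hv⟩ := h A hA1
      have hve := (mem_St.1 (hv hA2)).1
      rw [Sym2.mem_iff] at hve
      rw [mem_union, mem_filter, mem_filter]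
      rcases hve with rfl | rfl
      · exact Or.inl ⟨hA1, hA2, hv⟩
      · exact Or.inr ⟨hA1, hA2, hv⟩
    calc _ ≤ _ := card_le_card hsub
      _ ≤ _ := card_union_le _ _
      _ ≤ _ := by have := key x; have := key y; omega

lemma split_edge {E : Type*} [DecidableEq E] (F : Finset (Finset E)) (B C : Finset E) (e : E)
    (he : e ∈ B ∆ C) : F.card ≤ (F.filter (fun A => e ∈ B ∆ A)).card
      + (F.filter (fun A => e ∈ C ∆ A)).card := by
  refine le_trans (card_le_card ?_) (card_union_le _ _)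
  intro A hA
  rw [mem_union, mem_filter, mem_filter]
  by_cases h : e ∈ B ∆ A
  · exact Or.inl ⟨hA, h⟩
  · exact Or.inr ⟨hA, cov2 he h⟩

lemma exists_edge {E : Type*} [DecidableEq E] {B C : Finset E} (h : B ≠ C) : ∃ e, e ∈ B ∆ C := by
  by_contra hno
  push Not at hno
  exact h (symmDiff_eq_bot.1 (eq_empty_of_forall_notMem hno))

/-- If one family is small then the bound holds. -/
lemma small (F G : Finset (Finset (Sym2 V))) (hV : 4 ≤ Fintype.card V)
    (h : ∀ A ∈ F, ∀ B ∈ G, ∃ v, A ∆ B ⊆ St v) (hG : G.card ≤ 2 ^ (Fintype.card V - 1 - 1)) :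
    F.card * G.card ≤ 4 ^ (Fintype.card V - 1) := by
  have h' : ∀ B ∈ G, ∀ A ∈ F, ∃ v, B ∆ A ⊆ St v := by
    intro B hB A hA
    obtain ⟨v, hv⟩ := h A hA B hB
    exact ⟨v, by rw [symmDiff_comm]; exact hv⟩
  obtain ⟨m, hm⟩ : ∃ m, Fintype.card V = m + 2 := ⟨Fintype.card V - 2, by omega⟩
  have e1 : Fintype.card V - 1 = m + 1 := by omega
  have e2 : Fintype.card V - 1 - 1 = m := by omega
  have e3 : (4 : ℕ) ^ (m + 1) = 2 ^ (m + 1) * 2 ^ (m + 1) := by
    rw [show (4 : ℕ) = 2 * 2 from rfl, mul_pow]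
  rcases Nat.lt_or_ge 1 G.card with h1 | h1
  · obtain ⟨B, hB, C, hC, hne⟩ := one_lt_card.1 h1
    obtain ⟨e, he⟩ := exists_edge hne
    have h2 := split_edge F B C e he
    have h3 := card_edge F B (h' B hB) e
    have h4 := card_edge F C (h' C hC) e
    rw [e2] at h3 h4 hG
    rw [e1, e3]
    have h5 : F.card ≤ 4 * 2 ^ m := by omega
    calc F.card * G.card ≤ (4 * 2 ^ m) * 2 ^ m := Nat.mul_le_mul h5 hG
      _ = 2 ^ (m + 1) * 2 ^ (m + 1) := by ring
  · rcases Nat.eq_zero_or_pos G.card with h0 | h0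
    · rw [h0]; simp
    · obtain ⟨B, hB⟩ := card_pos.1 h0
      have h2 : F ⊆ (univ : Finset V).biUnion (fun v => F.filter (fun A => B ∆ A ⊆ St v)) := by
        intro A hA
        obtain ⟨v, hv⟩ := h' B hB A hA
        exact mem_biUnion.2 ⟨v, mem_univ _, mem_filter.2 ⟨hA, hv⟩⟩
      have h3 : F.card ≤ Fintype.card V * 2 ^ (Fintype.card V - 1) := by
        refine le_trans (card_le_card h2) (le_trans (card_biUnion_le_card_mul _ _
          (2 ^ (Fintype.card V - 1)) (fun v _ => card_coset F B v)) ?_)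
        rw [card_univ]
      rw [e1, hm] at h3
      rw [e1, e3]
      have h4 : m + 2 ≤ 2 ^ (m + 1) := Nat.lt_two_pow_self
      calc F.card * G.card ≤ F.card * 1 := Nat.mul_le_mul_left _ h1
        _ = F.card := mul_one _
        _ ≤ (m + 2) * 2 ^ (m + 1) := h3
        _ ≤ 2 ^ (m + 1) * 2 ^ (m + 1) := Nat.mul_le_mul_right _ h4

/-- If some difference inside `F` is a star with at least three edges. -/
lemma large (F G : Finset (Finset (Sym2 V))) (hV : 4 ≤ Fintype.card V)
    (h : ∀ A ∈ F, ∀ B ∈ G, ∃ v, A ∆ B ⊆ St v) (A A' : Finset (Sym2 V)) (hA : A ∈ F)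
    (hA' : A' ∈ F) (v : V) (hs : A ∆ A' ⊆ St v) (h3 : 3 ≤ (A ∆ A').card) :
    F.card * G.card ≤ 4 ^ (Fintype.card V - 1) := by
  have hG : ∀ B ∈ G, A ∆ B ⊆ St v := by
    intro B hB
    obtain ⟨x, hx⟩ := h A hA B hB
    obtain ⟨y, hy⟩ := h A' hA' B hB
    by_contra hno
    have hxv : v ≠ x := by rintro rfl; exact hno hx
    have hyv : v ≠ y := by
      rintro rfl
      refine hno ?_
      have h4 : A' ∆ A ⊆ St v := by rw [symmDiff_comm]; exact hs
      exact tri h4 hy
    have h5 : A ∆ A' ⊆ {s(v, x), s(v, y)} := by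
      intro e he
      have h6 : e ∈ A ∆ B ∨ e ∈ A' ∆ B := cov he
      rw [mem_insert, mem_singleton]
      rcases h6 with h6 | h6
      · left
        have := St_inter hxv (mem_inter.2 ⟨hs he, hx h6⟩)
        exact mem_singleton.1 this
      · right
        have := St_inter hyv (mem_inter.2 ⟨hs he, hy h6⟩)
        exact mem_singleton.1 this
    have h7 := card_le_card h5
    have h8 : ({s(v, x), s(v, y)} : Finset (Sym2 V)).card ≤ 2 := card_le_two
    omega
  by_cases hall : ∀ C ∈ F, A ∆ C ⊆ St v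
  · have h4 : F.card ≤ 2 ^ (Fintype.card V - 1) := by
      rw [← card_St v]
      exact card_le_diff _ _ fun C hC C' hC' => tri (hall C hC) (hall C' hC')
    have h5 : G.card ≤ 2 ^ (Fintype.card V - 1) := by
      rw [← card_St v]
      exact card_le_diff _ _ fun C hC C' hC' => tri (hG C hC) (hG C' hC')
    have e3 : (4 : ℕ) ^ (Fintype.card V - 1) =
        2 ^ (Fintype.card V - 1) * 2 ^ (Fintype.card V - 1) := by
      rw [show (4 : ℕ) = 2 * 2 from rfl, mul_pow]
    rw [e3]
    exact Nat.mul_le_mul h4 h5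
  · push Not at hall
    obtain ⟨C, hC, hCv⟩ := hall
    obtain ⟨e, he, hev⟩ := not_subset.1 hCv
    have h6 : G.card ≤ 4 := by
      rcases G.eq_empty_or_nonempty with h0 | ⟨B0, hB0⟩
      · rw [h0]; simp
      have hmem : ∀ B ∈ G, ∃ u ∈ e, C ∆ B ⊆ St u ∧ ¬ e.IsDiag := by
        intro B hB
        obtain ⟨u, hu⟩ := h C hC B hB
        have h7 : e ∉ A ∆ B := fun h8 => hev (hG B hB h8)
        have h8 : e ∈ C ∆ B := cov2 he h7
        exact ⟨u, (mem_St.1 (hu h8)).1, hu, (mem_St.1 (hu h8)).2⟩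
      have hd : ¬ e.IsDiag := by
        obtain ⟨u, _, _, hd⟩ := hmem B0 hB0
        exact hd
      have hve : v ∉ e := fun h9 => hev (mem_St.2 ⟨h9, hd⟩)
      induction e using Sym2.ind with
      | _ x y =>
        have hvx : v ≠ x := by rintro rfl; exact hve (Sym2.mem_mk_left _ _)
        have hvy : v ≠ y := by rintro rfl; exact hve (Sym2.mem_mk_right _ _)
        have hsub : G ⊆ G.filter (fun B => A ∆ B ⊆ St v ∧ C ∆ B ⊆ St x) ∪
            G.filter (fun B => A ∆ B ⊆ St v ∧ C ∆ B ⊆ St y) := by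
          intro B hB
          obtain ⟨u, hu, hu2, _⟩ := hmem B hB
          rw [mem_union, mem_filter, mem_filter]
          rw [Sym2.mem_iff] at hu
          rcases hu with rfl | rfl
          · exact Or.inl ⟨hB, hG B hB, hu2⟩
          · exact Or.inr ⟨hB, hG B hB, hu2⟩
        have h9 := card_two G A C hvx
        have h10 := card_two G A C hvy
        calc G.card ≤ _ := card_le_card hsub
          _ ≤ _ := card_union_le _ _
          _ ≤ 4 := by omega
    refine small F G hV h ?_
    refine le_trans h6 ?_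
    calc 4 = 2 ^ 2 := rfl
      _ ≤ 2 ^ (Fintype.card V - 1 - 1) := Nat.pow_le_pow_right (by norm_num) (by omega)

/-- If some difference inside `F` is not a star. -/
lemma nonstar (G : Finset (Finset (Sym2 V))) (A A' : Finset (Sym2 V))
    (h : ∀ B ∈ G, ∃ v, A ∆ B ⊆ St v) (h' : ∀ B ∈ G, ∃ v, A' ∆ B ⊆ St v)
    (hs : ∀ v, ¬ A ∆ A' ⊆ St v) : G.card ≤ 16 := by
  rcases G.eq_empty_or_nonempty with h0 | ⟨B0, hB0⟩
  · rw [h0]; simp
  have hne : A ≠ A' := by
    rintro rfl
    obtain ⟨v, _⟩ := h B0 hB0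
    exact hs v (by simp)
  obtain ⟨e, he⟩ := exists_edge hne
  induction e using Sym2.ind with
  | _ a b =>
    obtain ⟨f, hf, hfa⟩ := not_subset.1 (hs a)
    obtain ⟨g, hg, hgb⟩ := not_subset.1 (hs b)
    induction f using Sym2.ind with
    | _ f1 f2 =>
      induction g using Sym2.ind with
      | _ g1 g2 =>
        set L : List (V × V) := [(a, f1), (a, f2), (b, g1), (b, g2), (f1, a), (f2, a), (g1, b),
          (g2, b)] with hL
        have hsub : G ⊆ L.toFinset.biUnion
            (fun p => G.filter (fun B => A ∆ B ⊆ St p.1 ∧ A' ∆ B ⊆ St p.2)) := by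
          intro B hB
          obtain ⟨x, hx⟩ := h B hB
          obtain ⟨y, hy⟩ := h' B hB
          have hcov : ∀ e ∈ A ∆ A', e ∈ St x ∨ e ∈ St y := by
            intro e he
            have h6 : e ∈ A ∆ B ∨ e ∈ A' ∆ B := cov he
            rcases h6 with h6 | h6
            · exact Or.inl (hx h6)
            · exact Or.inr (hy h6)
          have hmem : (x, y) ∈ L := by
            have hfx : x = a → (y = f1 ∨ y = f2) := by
              rintro rfl
              rcases hcov _ hf with h7 | h7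
              · exact absurd h7 hfa
              · exact Sym2.mem_iff.1 (mem_St.1 h7).1
            have hfy : y = a → (x = f1 ∨ x = f2) := by
              rintro rfl
              rcases hcov _ hf with h7 | h7
              · exact Sym2.mem_iff.1 (mem_St.1 h7).1
              · exact absurd h7 hfa
            have hgx : x = b → (y = g1 ∨ y = g2) := by
              rintro rfl
              rcases hcov _ hg with h7 | h7
              · exact absurd h7 hgb
              · exact Sym2.mem_iff.1 (mem_St.1 h7).1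
            have hgy : y = b → (x = g1 ∨ x = g2) := by
              rintro rfl
              rcases hcov _ hg with h7 | h7
              · exact Sym2.mem_iff.1 (mem_St.1 h7).1
              · exact absurd h7 hgb
            have h8 : (x = a ∨ x = b) ∨ (y = a ∨ y = b) := by
              rcases hcov _ he with h7 | h7
              · exact Or.inl (Sym2.mem_iff.1 (mem_St.1 h7).1)
              · exact Or.inr (Sym2.mem_iff.1 (mem_St.1 h7).1)
            rw [hL]
            simp only [List.mem_cons, Prod.mk.injEq, List.not_mem_nil, or_false]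
            rcases h8 with (h8 | h8) | (h8 | h8)
            · rcases hfx h8 with h9 | h9
              · exact Or.inl ⟨h8, h9⟩
              · exact Or.inr (Or.inl ⟨h8, h9⟩)
            · rcases hgx h8 with h9 | h9
              · exact Or.inr (Or.inr (Or.inl ⟨h8, h9⟩))
              · exact Or.inr (Or.inr (Or.inr (Or.inl ⟨h8, h9⟩)))
            · rcases hfy h8 with h9 | h9
              · exact Or.inr (Or.inr (Or.inr (Or.inr (Or.inl ⟨h9, h8⟩))))
              · exact Or.inr (Or.inr (Or.inr (Or.inr (Or.inr (Or.inl ⟨h9, h8⟩)))))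
            · rcases hgy h8 with h9 | h9
              · exact Or.inr (Or.inr (Or.inr (Or.inr (Or.inr (Or.inr (Or.inl ⟨h9, h8⟩))))))
              · exact Or.inr (Or.inr (Or.inr (Or.inr (Or.inr (Or.inr (Or.inr ⟨h9, h8⟩))))))
          exact mem_biUnion.2 ⟨(x, y), List.mem_toFinset.2 hmem, mem_filter.2 ⟨hB, hx, hy⟩⟩
        refine le_trans (card_le_card hsub) (le_trans (card_biUnion_le_card_mul _ _ 2 ?_) ?_)
        · rintro ⟨x, y⟩ _
          by_cases hxy : x = y
          · subst hxy
            have : G.filter (fun B => A ∆ B ⊆ St x ∧ A' ∆ B ⊆ St x) = ∅ := by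
              rw [filter_eq_empty_iff]
              rintro B _ ⟨h7, h8⟩
              refine hs x ?_
              intro e he
              have h6 : e ∈ A ∆ B ∨ e ∈ A' ∆ B := cov he
              rcases h6 with h6 | h6
              · exact h7 h6
              · exact h8 h6
            show (G.filter (fun B => A ∆ B ⊆ St x ∧ A' ∆ B ⊆ St x)).card ≤ 2
            rw [this]; simp
          · exact card_two G A A' hxy
        · have := List.toFinset_card_le L
          have h9 : L.length = 8 := rfl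
          omega

/-- If some difference inside `F` is not a star but all differences inside `G` are. -/
lemma nonstar' (G : Finset (Finset (Sym2 V))) (A A' : Finset (Sym2 V))
    (h : ∀ B ∈ G, ∃ v, A ∆ B ⊆ St v) (h' : ∀ B ∈ G, ∃ v, A' ∆ B ⊆ St v)
    (hs : ∀ v, ¬ A ∆ A' ⊆ St v) (hG : ∀ B ∈ G, ∀ C ∈ G, ∃ v, B ∆ C ⊆ St v) : G.card ≤ 8 := by
  set G' := G.image (fun B => B ∆ (A ∆ A')) with hG'
  have hc : G'.card = G.card := by
    rw [hG']
    exact card_image_of_injective _ (symmDiff_left_injective _)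
  have hdis : Disjoint G G' := by
    rw [disjoint_left]
    intro B hB hB'
    obtain ⟨C, hC, rfl⟩ := mem_image.1 hB'
    obtain ⟨v, hv⟩ := hG C hC _ hB
    refine hs v ?_
    rwa [symmDiff_symmDiff_cancel_left] at hv
  have h1 : (G ∪ G').card ≤ 16 := by
    refine nonstar (G ∪ G') A A' ?_ ?_ hs
    · intro B hB
      rcases mem_union.1 hB with hB | hB
      · exact h B hB
      · obtain ⟨C, hC, rfl⟩ := mem_image.1 hB
        obtain ⟨v, hv⟩ := h' C hC
        refine ⟨v, ?_⟩
        have : A ∆ (C ∆ (A ∆ A')) = A' ∆ C := by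
          ext e; simp only [mem_symmDiff]; tauto
        show A ∆ (C ∆ (A ∆ A')) ⊆ St v
        rw [this]; exact hv
    · intro B hB
      rcases mem_union.1 hB with hB | hB
      · exact h' B hB
      · obtain ⟨C, hC, rfl⟩ := mem_image.1 hB
        obtain ⟨v, hv⟩ := h C hC
        refine ⟨v, ?_⟩
        have : A' ∆ (C ∆ (A ∆ A')) = A ∆ C := by
          ext e; simp only [mem_symmDiff]; tauto
        show A' ∆ (C ∆ (A ∆ A')) ⊆ St v
        rw [this]; exact hv
  rw [card_union_of_disjoint hdis, hc] at h1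
  omega

/-- All differences are stars with at most two edges. -/
lemma tiny (F : Finset (Finset (Sym2 V))) (hV : 5 ≤ Fintype.card V)
    (h : ∀ A ∈ F, ∀ B ∈ F, (∃ v, A ∆ B ⊆ St v) ∧ (A ∆ B).card ≤ 2) :
    F.card ≤ 2 ^ (Fintype.card V - 1) := by
  rcases Nat.lt_or_ge 1 F.card with h1 | h1
  · obtain ⟨B, hB, C, hC, hne⟩ := one_lt_card.1 h1
    obtain ⟨e, he⟩ := exists_edge hne
    have key : ∀ C ∈ F, (F.filter (fun A => e ∈ C ∆ A)).card ≤ 2 * (Fintype.card V - 1) := by
      intro C hC
      induction e using Sym2.ind with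
      | _ x y =>
        have h2 : (F.filter (fun A => s(x, y) ∈ C ∆ A)).card ≤
            ((St x ∪ St y).image (fun f => ({s(x, y), f} : Finset (Sym2 V)))).card := by
          refine card_le_card_of_injOn (fun A => C ∆ A) ?_ ?_
          · intro A hA
            obtain ⟨hA1, hA2⟩ := mem_filter.1 (mem_coe.1 hA)
            obtain ⟨⟨v, hv⟩, hcd⟩ := h C hC A hA1
            have hvxy := Sym2.mem_iff.1 (mem_St.1 (hv hA2)).1
            have hsubst : C ∆ A ⊆ St x ∪ St y := by
              rcases hvxy with rfl | rfl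
              · exact hv.trans subset_union_left
              · exact hv.trans subset_union_right
            refine mem_coe.2 (mem_image.2 ?_)
            by_cases hsing : C ∆ A = {s(x, y)}
            · refine ⟨s(x, y), hsubst hA2, ?_⟩
              show ({s(x, y), s(x, y)} : Finset (Sym2 V)) = C ∆ A
              rw [hsing]; simp
            · obtain ⟨f, hf, hfe⟩ : ∃ f ∈ C ∆ A, f ≠ s(x, y) := by
                by_contra hno
                push Not at hno
                refine hsing (eq_singleton_iff_unique_mem.2 ⟨hA2, hno⟩)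
              refine ⟨f, hsubst hf, ?_⟩
              refine eq_of_subset_of_card_le ?_ ?_
              · intro g hg
                rw [mem_insert, mem_singleton] at hg
                rcases hg with rfl | rfl
                · exact hA2
                · exact hf
              · show (C ∆ A).card ≤ ({s(x, y), f} : Finset (Sym2 V)).card
                rw [card_pair hfe.symm]
                exact hcd
          · intro A _ A' _ hAA
            exact symmDiff_right_injective C hAA
        refine le_trans h2 (le_trans card_image_le (le_trans (card_union_le _ _) ?_))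
        rw [card_St, card_St]
        omega
    have h2 := split_edge F B C e he
    have h3 := key B hB
    have h4 := key C hC
    obtain ⟨m, hm⟩ : ∃ m, Fintype.card V = m + 5 := ⟨Fintype.card V - 5, by omega⟩
    have h5 : ∀ m : ℕ, 4 * (m + 4) ≤ 2 ^ (m + 4) := by
      intro m
      induction m with
      | zero => norm_num
      | succ m ih =>
        rw [show m + 1 + 4 = (m + 4) + 1 by ring, pow_succ]
        omega
    have h6 := h5 m
    have e1 : Fintype.card V - 1 = m + 4 := by omega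
    rw [e1] at h3 h4 ⊢
    omega
  · exact le_trans h1 Nat.one_le_two_pow

/-- **Sums inside a union of star spaces.** -/
theorem star_sum (F G : Finset (Finset (Sym2 V))) (hV : 5 ≤ Fintype.card V)
    (h : ∀ A ∈ F, ∀ B ∈ G, ∃ v, A ∆ B ⊆ St v) :
    F.card * G.card ≤ 4 ^ (Fintype.card V - 1) := by
  have h' : ∀ B ∈ G, ∀ A ∈ F, ∃ v, B ∆ A ⊆ St v := by
    intro B hB A hA
    obtain ⟨v, hv⟩ := h A hA B hB
    exact ⟨v, by rw [symmDiff_comm]; exact hv⟩
  have e8 : 8 ≤ 2 ^ (Fintype.card V - 1 - 1) := by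
    calc 8 = 2 ^ 3 := rfl
      _ ≤ 2 ^ (Fintype.card V - 1 - 1) := Nat.pow_le_pow_right (by norm_num) (by omega)
  by_cases hF3 : ∃ A ∈ F, ∃ A' ∈ F, ∃ v, A ∆ A' ⊆ St v ∧ 3 ≤ (A ∆ A').card
  · obtain ⟨A, hA, A', hA', v, hv, h3⟩ := hF3
    exact large F G (by omega) h A A' hA hA' v hv h3
  by_cases hG3 : ∃ A ∈ G, ∃ A' ∈ G, ∃ v, A ∆ A' ⊆ St v ∧ 3 ≤ (A ∆ A').card
  · obtain ⟨A, hA, A', hA', v, hv, h3⟩ := hG3
    rw [mul_comm]
    exact large G F (by omega) h' A A' hA hA' v hv h3
  by_cases hFn : ∃ A ∈ F, ∃ A' ∈ F, ∀ v, ¬ A ∆ A' ⊆ St v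
  · obtain ⟨A, hA, A', hA', hs⟩ := hFn
    by_cases hGn : ∃ A ∈ G, ∃ A' ∈ G, ∀ v, ¬ A ∆ A' ⊆ St v
    · obtain ⟨B, hB, B', hB', hs'⟩ := hGn
      have h1 := nonstar G A A' (h A hA) (h A' hA') hs
      have h2 := nonstar F B B' (h' B hB) (h' B' hB') hs'
      calc F.card * G.card ≤ 16 * 16 := Nat.mul_le_mul h2 h1
        _ = 4 ^ 4 := by norm_num
        _ ≤ 4 ^ (Fintype.card V - 1) := Nat.pow_le_pow_right (by norm_num) (by omega)
    · push Not at hGn
      exact small F G (by omega) h (le_trans (nonstar' G A A' (h A hA) (h A' hA') hs hGn) e8)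
  by_cases hGn : ∃ A ∈ G, ∃ A' ∈ G, ∀ v, ¬ A ∆ A' ⊆ St v
  · obtain ⟨A, hA, A', hA', hs⟩ := hGn
    push Not at hFn
    rw [mul_comm]
    exact small G F (by omega) h' (le_trans (nonstar' F A A' (h' A hA) (h' A' hA') hs hFn) e8)
  push Not at hFn hGn hF3 hG3
  have h1 : F.card ≤ 2 ^ (Fintype.card V - 1) := by
    refine tiny F hV fun A hA B hB => ?_
    obtain ⟨v, hv⟩ := hFn A hA B hB
    exact ⟨⟨v, hv⟩, by have := hF3 A hA B hB v hv; omega⟩
  have h2 : G.card ≤ 2 ^ (Fintype.card V - 1) := by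
    refine tiny G hV fun A hA B hB => ?_
    obtain ⟨v, hv⟩ := hGn A hA B hB
    exact ⟨⟨v, hv⟩, by have := hG3 A hA B hB v hv; omega⟩
  calc F.card * G.card ≤ 2 ^ (Fintype.card V - 1) * 2 ^ (Fintype.card V - 1) :=
        Nat.mul_le_mul h1 h2
    _ = 4 ^ (Fintype.card V - 1) := by
        rw [show (4 : ℕ) = 2 * 2 from rfl, mul_pow]

end Pool.Agent.Helper50.CX
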