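import Mathlib
import Pool.Agent.Helper64.CX.Peel
import Pool.Agent.Helper50.CX.Star

set_option autoImplicit false

/-! # The case `n = t + 1`

The exact bound for cross pairs of graphs on `k + 2` vertices whose difference graphs are never
`k`-colourable (`k ≥ 3`). -/

namespace Pool.Agent.Helper50.CX

open Finset Pool.Agent.Helper64.CX
open scoped symmDiff

lemma enc_surj : ∀ (n : ℕ) (A : Cfg n), ∃ a : Fin n → Fin n → Bool, enc n a = A := by
  intro n
  induction n with
  | zero => intro A; exact ⟨fun _ _ => false, rfl⟩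
  | succ n ih =>
    rintro ⟨A, x⟩
    obtain ⟨a, ha⟩ := ih A
    refine ⟨fun i j => Fin.snoc (α := fun _ => Bool)
      (fun j' => Fin.snoc (α := fun _ => Bool) (fun i' => a i' j') false i)
      (Fin.snoc (α := fun _ => Bool) x false i) j, ?_⟩
    have e1 : (fun i j : Fin n => Fin.snoc (α := fun _ => Bool)
      (fun j' => Fin.snoc (α := fun _ => Bool) (fun i' => a i' j') false i.castSucc)
      (Fin.snoc (α := fun _ => Bool) x false i.castSucc) j.castSucc) = a := by
      funext i j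
      rw [Fin.snoc_castSucc, Fin.snoc_castSucc]
    have e2 : (fun i : Fin n => Fin.snoc (α := fun _ => Bool)
      (fun j' => Fin.snoc (α := fun _ => Bool) (fun i' => a i' j') false i.castSucc)
      (Fin.snoc (α := fun _ => Bool) x false i.castSucc) (Fin.last n)) = x := by
      funext i
      rw [Fin.snoc_last, Fin.snoc_castSucc]
    refine Prod.ext ?_ ?_
    · rw [← ha]
      exact congrArg (enc n) e1
    · exact e2

lemma enc_congr : ∀ (n : ℕ) (a b : Fin n → Fin n → Bool), (∀ i j, i < j → a i j = b i j) →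
    enc n a = enc n b := by
  intro n
  induction n with
  | zero => intro a b _; rfl
  | succ n ih =>
    intro a b h
    refine Prod.ext ?_ ?_
    · exact ih _ _ fun i j hij => h _ _ (Fin.castSucc_lt_castSucc_iff.2 hij)
    · funext i
      exact h _ _ (Fin.castSucc_lt_last i)

/-- the pairs on which the adjacency function equals `b` -/
def Ed {n : ℕ} (b : Bool) (a : Fin n → Fin n → Bool) : Finset (Sym2 (Fin n)) :=
  univ.filter (fun e => ∃ i j, i < j ∧ e = s(i, j) ∧ a i j = b)

lemma mem_Ed {n : ℕ} (b : Bool) (a : Fin n → Fin n → Bool) {i j : Fin n} (h : i < j) :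
    s(i, j) ∈ Ed b a ↔ a i j = b := by
  unfold Ed
  rw [mem_filter]
  constructor
  · rintro ⟨_, i', j', hij, he, hb⟩
    rw [Sym2.eq_iff] at he
    rcases he with ⟨rfl, rfl⟩ | ⟨rfl, rfl⟩
    · exact hb
    · exact absurd hij (lt_asymm h)
  · intro hb
    exact ⟨mem_univ _, i, j, h, rfl, hb⟩

lemma Ed_form {n : ℕ} (b : Bool) (a : Fin n → Fin n → Bool) {e : Sym2 (Fin n)}
    (h : e ∈ Ed b a) : ∃ i j, i < j ∧ e = s(i, j) := by
  obtain ⟨_, i, j, hij, he, _⟩ := mem_filter.1 h
  exact ⟨i, j, hij, he⟩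

lemma Ed_inj {n : ℕ} (b : Bool) (a a' : Fin n → Fin n → Bool) (h : Ed b a = Ed b a') :
    enc n a = enc n a' := by
  refine enc_congr n a a' fun i j hij => ?_
  have h1 := mem_Ed b a hij
  have h2 := mem_Ed b a' hij
  rw [h] at h1
  have h3 : a i j = b ↔ a' i j = b := h1.symm.trans h2
  cases hx : a i j <;> cases hy : a' i j <;> cases b <;> simp_all

lemma mem_diff {n : ℕ} (a b : Fin n → Fin n → Bool) {i j : Fin n} (h : i < j) :
    s(i, j) ∈ Ed true a ∆ Ed false b ↔ a i j = b i j := by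
  rw [mem_symmDiff, mem_Ed _ _ h, mem_Ed _ _ h]
  cases a i j <;> cases b i j <;> simp

/-- the colouring of `k + 2` vertices with `k` colours that merges `p, p'` and `q, q'` -/
lemma merge (k : ℕ) (p q p' q' : Fin (k + 2)) (hpq : p ≠ q) (h1 : p' ≠ p) (h2 : p' ≠ q)
    (h3 : q' ≠ p) (h4 : q' ≠ q) : ∃ c : Fin (k + 2) → Fin k, ∀ i j, i ≠ j → c i = c j →
      s(i, j) = s(p, p') ∨ s(i, j) = s(q, q') ∨ (p' = q' ∧ s(i, j) = s(p, q)) := by
  classical
  have hcard : Fintype.card {x : Fin (k + 2) // x ≠ p ∧ x ≠ q} = k := by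
    rw [Fintype.card_subtype]
    have : (univ.filter (fun x : Fin (k + 2) => x ≠ p ∧ x ≠ q)) = (univ.erase p).erase q := by
      ext x; simp [and_comm]
    rw [this, card_erase_of_mem (mem_erase.2 ⟨hpq.symm, mem_univ _⟩),
      card_erase_of_mem (mem_univ _), card_univ, Fintype.card_fin]
    omega
  let e := Fintype.equivFinOfCardEq hcard
  let r : Fin (k + 2) → {x : Fin (k + 2) // x ≠ p ∧ x ≠ q} := fun x =>
    if hp : x = p then ⟨p', h1, h2⟩ else if hq : x = q then ⟨q', h3, h4⟩ else ⟨x, hp, hq⟩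
  have rp : ∀ x, x = p → (r x : Fin (k + 2)) = p' := by
    intro x hx; simp only [r, dif_pos hx]
  have rq : ∀ x, x ≠ p → x = q → (r x : Fin (k + 2)) = q' := by
    intro x hx hx'; simp only [r, dif_neg hx, dif_pos hx']
  have rx : ∀ x, x ≠ p → x ≠ q → (r x : Fin (k + 2)) = x := by
    intro x hx hx'; simp only [r, dif_neg hx, dif_neg hx']
  refine ⟨fun x => e (r x), ?_⟩
  intro i j hij hc
  have hr : (r i : Fin (k + 2)) = r j := congrArg Subtype.val (e.injective hc)
  by_cases hi : i = p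
  · rw [rp i hi] at hr
    by_cases hj : j = p
    · exact absurd (hi.trans hj.symm) hij
    · by_cases hj' : j = q
      · rw [rq j hj hj'] at hr
        exact Or.inr (Or.inr ⟨hr, by rw [hi, hj']⟩)
      · rw [rx j hj hj'] at hr
        exact Or.inl (by rw [hi, hr])
  · by_cases hi' : i = q
    · rw [rq i hi hi'] at hr
      by_cases hj : j = p
      · rw [rp j hj] at hr
        exact Or.inr (Or.inr ⟨hr.symm, by rw [hi', hj, Sym2.eq_swap]⟩)
      · by_cases hj' : j = q
        · exact absurd (hi'.trans hj'.symm) hij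
        · rw [rx j hj hj'] at hr
          exact Or.inr (Or.inl (by rw [hi', hr]))
    · rw [rx i hi hi'] at hr
      by_cases hj : j = p
      · rw [rp j hj] at hr
        exact Or.inl (by rw [hr, hj, Sym2.eq_swap])
      · by_cases hj' : j = q
        · rw [rq j hj hj'] at hr
          exact Or.inr (Or.inl (by rw [hr, hj', Sym2.eq_swap]))
        · rw [rx j hj hj'] at hr
          exact absurd hr hij

/-- a set of edges that is not contained in a star contains a matching or a triangle -/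
lemma config {V : Type*} [Fintype V] [DecidableEq V] (T : Finset (Sym2 V))
    (hd : ∀ e ∈ T, ¬ e.IsDiag) (hne : T.Nonempty) (h : ∀ v, ¬ T ⊆ St v) :
    ∃ p q p' q' : V, p ≠ q ∧ p' ≠ p ∧ p' ≠ q ∧ q' ≠ p ∧ q' ≠ q ∧ s(p, p') ∈ T ∧ s(q, q') ∈ T ∧
      (p' = q' → s(p, q) ∈ T) := by
  have two : ∀ a b c d : V, s(a, b) ∈ T → s(c, d) ∈ T → a ≠ c → a ≠ d → b ≠ c → b ≠ d →
      ∃ p q p' q' : V, p ≠ q ∧ p' ≠ p ∧ p' ≠ q ∧ q' ≠ p ∧ q' ≠ q ∧ s(p, p') ∈ T ∧
        s(q, q') ∈ T ∧ (p' = q' → s(p, q) ∈ T) := by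
    intro a b c d h1 h2 h3 h4 h5 h6
    have hab : a ≠ b := fun h => hd _ h1 (Sym2.mk_isDiag_iff.2 h)
    have hcd : c ≠ d := fun h => hd _ h2 (Sym2.mk_isDiag_iff.2 h)
    exact ⟨a, c, b, d, h3, hab.symm, h5, h4.symm, hcd.symm, h1, h2, fun h => absurd h h6⟩
  obtain ⟨e, he⟩ := hne
  induction e using Sym2.ind with
  | _ a b =>
    have hab : a ≠ b := fun h => hd _ he (Sym2.mk_isDiag_iff.2 h)
    obtain ⟨f, hf, hfa⟩ := not_subset.1 (h a)
    obtain ⟨g, hg, hgb⟩ := not_subset.1 (h b)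
    have hfa' : a ∉ f := fun h1 => hfa (mem_St.2 ⟨h1, hd _ hf⟩)
    have hgb' : b ∉ g := fun h1 => hgb (mem_St.2 ⟨h1, hd _ hg⟩)
    by_cases hbf : b ∈ f
    · obtain ⟨c, rfl⟩ := hbf
      have hbc : b ≠ c := fun h => hd _ hf (Sym2.mk_isDiag_iff.2 h)
      have hac : a ≠ c := by rintro rfl; exact hfa' (Sym2.mem_mk_right _ _)
      by_cases hag : a ∈ g
      · obtain ⟨d, rfl⟩ := hag
        have had : a ≠ d := fun h => hd _ hg (Sym2.mk_isDiag_iff.2 h)
        have hbd : b ≠ d := by rintro rfl; exact hgb' (Sym2.mem_mk_right _ _)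
        by_cases hcd : c = d
        · subst hcd
          exact ⟨b, c, a, a, hbc, hab, hac, hab, hac, by rw [Sym2.eq_swap]; exact he,
            by rw [Sym2.eq_swap]; exact hg, fun _ => hf⟩
        · exact two b c a d hf hg hab.symm hbd hac.symm hcd
      · induction g using Sym2.ind with
        | _ g1 g2 =>
          rw [Sym2.mem_iff] at hag hgb'
          push Not at hag hgb'
          exact two a b g1 g2 he hg hag.1 hag.2 hgb'.1 hgb'.2
    · induction f using Sym2.ind with
      | _ f1 f2 =>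
        rw [Sym2.mem_iff] at hbf hfa'
        push Not at hbf hfa'
        exact two a b f1 f2 he hf hfa'.1 hfa'.2 hbf.1 hbf.2

/-- if the difference graph is not `k`-colourable then the agreement graph is a star -/
lemma star_of_not_col (k : ℕ) (a b : Fin (k + 2) → Fin (k + 2) → Bool)
    (h : ¬ Col k (k + 2) (enc _ a) (enc _ b)) : ∃ v, Ed true a ∆ Ed false b ⊆ St v := by
  by_contra hno
  push Not at hno
  refine h ?_
  have hd : ∀ e ∈ Ed true a ∆ Ed false b, ∃ i j, i < j ∧ e = s(i, j) := by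
    intro e he
    rw [mem_symmDiff] at he
    rcases he with he | he
    · exact Ed_form _ _ he.1
    · exact Ed_form _ _ he.1
  have hd' : ∀ e ∈ Ed true a ∆ Ed false b, ¬ e.IsDiag := by
    intro e he
    obtain ⟨i, j, hij, rfl⟩ := hd e he
    rw [Sym2.mk_isDiag_iff]
    exact hij.ne
  have hne : (Ed true a ∆ Ed false b).Nonempty := by
    by_contra h0
    rw [not_nonempty_iff_eq_empty] at h0
    exact hno 0 (by rw [h0]; exact empty_subset _)
  obtain ⟨p, q, p', q', h1, h2, h3, h4, h5, h6, h7, h8⟩ := config _ hd' hne hno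
  obtain ⟨c, hc⟩ := merge k p q p' q' h1 h2 h3 h4 h5
  refine ⟨c, ?_⟩
  rw [Pr_enc]
  intro i j hij hab hcc
  refine hab ((mem_diff a b hij).1 ?_)
  rcases hc i j hij.ne hcc with h9 | h9 | ⟨h9, h10⟩
  · rw [h9]; exact h6
  · rw [h9]; exact h7
  · rw [h10]; exact h8 h9

/-- **The exact bound for `n = t + 1 = k + 2` vertices, `k ≥ 3`.** -/
theorem boundNext (k : ℕ) (hk : 3 ≤ k) :
    Bound k (k + 2) (((1 / 2 : ℝ) ^ ((k + 1).choose 2)) ^ 2) := by
  classical
  intro F G h
  choose dec hdec using enc_surj (k + 2)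
  set F' := F.image (fun A => Ed true (dec A)) with hF'
  set G' := G.image (fun A => Ed false (dec A)) with hG'
  have hinj : ∀ b : Bool, Function.Injective (fun A => Ed b (dec A)) := by
    intro b A B hAB
    have := Ed_inj b (dec A) (dec B) hAB
    rwa [hdec, hdec] at this
  have hFc : F'.card = F.card := card_image_of_injective _ (hinj true)
  have hGc : G'.card = G.card := card_image_of_injective _ (hinj false)
  have hmain := star_sum F' G' (by rw [Fintype.card_fin]; omega) (by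
    intro A' hA' B' hB'
    obtain ⟨A, hA, rfl⟩ := mem_image.1 hA'
    obtain ⟨B, hB, rfl⟩ := mem_image.1 hB'
    refine star_of_not_col k (dec A) (dec B) ?_
    rw [hdec, hdec]
    exact h A hA B hB)
  rw [hFc, hGc, Fintype.card_fin] at hmain
  have e1 : ((k + 2).choose 2) = (k + 1) + (k + 1).choose 2 := by
    rw [show k + 2 = (k + 1) + 1 from rfl, Nat.choose_succ_succ' (k + 1) 1, Nat.choose_one_right]
  have e2 : (((1 / 2 : ℝ) ^ ((k + 1).choose 2)) ^ 2) * ((2 : ℝ) ^ ((k + 2).choose 2)) ^ 2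
      = 4 ^ (k + 1) := by
    have e4 : (1 / 2 : ℝ) ^ ((k + 1).choose 2) * 2 ^ ((k + 1).choose 2) = 1 := by
      rw [← mul_pow]; norm_num
    have e5 : (4 : ℝ) ^ (k + 1) = (2 ^ (k + 1)) ^ 2 := by
      rw [← pow_mul, mul_comm (k + 1) 2, pow_mul]; norm_num
    rw [e1, pow_add, e5, ← mul_pow]
    congr 1
    calc (1 / 2 : ℝ) ^ ((k + 1).choose 2) * (2 ^ (k + 1) * 2 ^ ((k + 1).choose 2))
        = 2 ^ (k + 1) * ((1 / 2 : ℝ) ^ ((k + 1).choose 2) * 2 ^ ((k + 1).choose 2)) := by ring
      _ = 2 ^ (k + 1) := by rw [e4, mul_one]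
  rw [e2]
  have e3 : k + 2 - 1 = k + 1 := by omega
  rw [e3] at hmain
  exact_mod_cast hmain

end Pool.Agent.Helper50.CX
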