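import Mathlib
import Pool.Agent.Helper75.E43.Contra

set_option autoImplicit false

/-! # Three colours and at least eight vertices: the contradiction at one vertex -/

namespace Pool.Agent.Helper50.CX

open Finset
open scoped BigOperators
open Pool.Agent.Helper41.PX
open Pool.Agent.Helper75.E43 (mean_edges mem_edges card_edges count_side)

lemma log_three_ge : 19 / 12 * Real.log 2 ≤ Real.log 3 := by
  have h1 : Real.log ((2 : ℝ) ^ 19) ≤ Real.log ((3 : ℝ) ^ 12) :=
    Real.log_le_log (by norm_num) (by norm_num)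
  rw [Real.log_pow, Real.log_pow] at h1
  push_cast at h1
  linarith

variable {V : Type*} [Fintype V] [DecidableEq V]

theorem contra3 (S : Finset V) (v : V) (hv : v ∈ S) (hS : 8 ≤ S.card)
    (F H : Conf V → Prop) (hF : Down F) (hH : Down H) (hXY : KK 3 < mu F * mu H)
    (c : ℝ) (hc0 : 0 < c) (hc1 : c < 1) (hs : c ^ 3 + (1 - c) ^ 3 ≤ 0.3455)
    (e1 : 𝔼 z, max (fm v F z - c ^ 3) 0 ≤ (1 - c) ^ 3 * mu F)
    (e2 : 𝔼 z, max (fm v H z - (1 - c) ^ 3) 0 ≤ c ^ 3 * mu H)
    (hp : ∀ a ∈ S.erase v, ∀ b ∈ S.erase v, a ≠ b →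
      mu (hat s(a, b) F) / mu F + mu (hat s(a, b) H) / mu H ≤ 0.94) : False := by
  classical
  have hKK : KK 3 = 1 / 4096 := by unfold KK; norm_num [Nat.choose]
  rw [hKK] at hXY
  set X := mu F with hX
  set Y := mu H with hY
  have hX0 : 0 ≤ X := mu_nonneg F
  have hY0 : 0 ≤ Y := mu_nonneg H
  have hXp : 0 < X := by
    rcases hX0.lt_or_eq with h | h
    · exact h
    · rw [← h, zero_mul] at hXY; norm_num at hXY
  have hYp : 0 < Y := by
    rcases hY0.lt_or_eq with h | h
    · exact h
    · rw [← h, mul_zero] at hXY; norm_num at hXY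
  set E := edges (S.erase v) with hE
  set x := c ^ 3 with hx
  set y := (1 - c) ^ 3 with hy
  have hx0 : 0 < x := by positivity
  have hy0 : 0 < y := pow_pos (by linarith) 3
  have hx1 : x < 1 := pow_lt_one₀ hc0.le hc1 (by norm_num)
  have hy1 : y < 1 := pow_lt_one₀ (by linarith) (by linarith) (by norm_num)
  have cF := count_side E (fm v F) (fm_nonneg v F) (fm_le_one v F) x y hx0 hx1 hy0 hy1
    (by rw [exp_fm]; exact hXp) (by rw [exp_fm]; exact e1) (1 / 3) (by norm_num) (by norm_num)
  have cH := count_side E (fm v H) (fm_nonneg v H) (fm_le_one v H) y x hy0 hy1 hx0 hx1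
    (by rw [exp_fm]; exact hYp) (by rw [exp_fm]; exact e2) (1 / 3) (by norm_num) (by norm_num)
  rw [exp_fm, mean_edges S v F hF, ← hE] at cF
  rw [exp_fm, mean_edges S v H hH, ← hE] at cH
  rw [← hX] at cF
  rw [← hY] at cH
  rw [one_div_one_div] at cF cH
  have hL : Real.log (2 / (1 + 1 / 3)) = Real.log 3 - Real.log 2 := by
    rw [show (2 : ℝ) / (1 + 1 / 3) = 3 / 2 by norm_num, Real.log_div (by norm_num) (by norm_num)]
  rw [hL] at cF cH
  set l := Real.log 3 with hl
  have hlpos : 0 < l := Real.log_pos (by norm_num)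
  set N : ℝ := (E.card : ℝ) with hN
  have dF : N * (l - Real.log 2) + Real.log X + (1 - y) * Real.log (1 / x)
      - y * Real.log (1 / y) - y ≤ l * (1 / 2) * ∑ e ∈ E, mu (hat e F) / X := by
    rw [← sum_div, ← mul_div_assoc, le_div_iff₀ hXp]
    linarith
  have dH : N * (l - Real.log 2) + Real.log Y + (1 - x) * Real.log (1 / y)
      - x * Real.log (1 / x) - x ≤ l * (1 / 2) * ∑ e ∈ E, mu (hat e H) / Y := by
    rw [← sum_div, ← mul_div_assoc, le_div_iff₀ hYp]
    linarith
  have hsum : ∑ e ∈ E, (mu (hat e F) / X + mu (hat e H) / Y) ≤ N * 0.94 := by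
    calc _ ≤ ∑ e ∈ E, (0.94 : ℝ) := by
          refine sum_le_sum fun e he => ?_
          obtain ⟨a, ha, b, hb, hab, rfl⟩ := mem_edges he
          exact hp a ha b hb hab
      _ = _ := by rw [sum_const, nsmul_eq_mul]
  rw [sum_add_distrib] at hsum
  have hNge : (21 : ℝ) ≤ N := by
    have h1 : (7 : ℕ).choose 2 ≤ E.card := by
      rw [hE, card_edges, card_erase_of_mem hv]
      exact Nat.choose_le_choose 2 (by omega)
    have h2 : (7 : ℕ).choose 2 = 21 := rfl
    rw [h2] at h1
    rw [hN]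
    exact_mod_cast h1
  -- logarithms
  have hlogXY : - (12 * Real.log 2) ≤ Real.log X + Real.log Y := by
    rw [← Real.log_mul hXp.ne' hYp.ne']
    have h1 : Real.log (1 / 4096) = - (12 * Real.log 2) := by
      rw [one_div, Real.log_inv, show (4096 : ℝ) = 2 ^ 12 by norm_num, Real.log_pow]
      push_cast; ring
    rw [← h1]
    exact Real.log_le_log (by norm_num) hXY.le
  have hlogxy : 6 * Real.log 2 ≤ Real.log (1 / x) + Real.log (1 / y) := by
    rw [hx, hy, one_div, one_div, Real.log_inv, Real.log_inv, Real.log_pow, Real.log_pow]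
    have h1 : Real.log c + Real.log (1 - c) ≤ - (2 * Real.log 2) := by
      rw [← Real.log_mul hc0.ne' (by linarith)]
      have h2 : Real.log (1 / 4) = - (2 * Real.log 2) := by
        rw [one_div, Real.log_inv, show (4 : ℝ) = 2 ^ 2 by norm_num, Real.log_pow]
        push_cast; ring
      rw [← h2]
      refine Real.log_le_log (mul_pos hc0 (by linarith)) ?_
      nlinarith [sq_nonneg (c - 1 / 2)]
    push_cast
    linarith
  have hlog2 : 0 < Real.log 2 := Real.log_pos (by norm_num)
  have h7 : (1 - (x + y)) * (6 * Real.log 2) ≤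
      (1 - (x + y)) * (Real.log (1 / x) + Real.log (1 / y)) :=
    mul_le_mul_of_nonneg_left hlogxy (by linarith)
  have h8 : (1 - 0.3455) * (6 * Real.log 2) ≤ (1 - (x + y)) * (6 * Real.log 2) :=
    mul_le_mul_of_nonneg_right (by linarith) (by positivity)
  have h9 : l * (1 / 2) * (∑ e ∈ E, mu (hat e F) / X + ∑ e ∈ E, mu (hat e H) / Y)
      ≤ l * (1 / 2) * (N * 0.94) :=
    mul_le_mul_of_nonneg_left hsum (by positivity)
  have h3 := log_three_ge
  rw [← hl] at h3
  have k1 := Real.log_two_gt_d9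
  have k2 := Real.log_two_lt_d9
  have hcoef : 0.2928 ≤ 1.53 * l - 2 * Real.log 2 := by linarith
  have h10 : 21 * 0.2928 ≤ N * (1.53 * l - 2 * Real.log 2) :=
    mul_le_mul hNge hcoef (by norm_num) (by linarith)
  nlinarith

end Pool.Agent.Helper50.CX
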