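import Mathlib
import Pool.Agent.Helper75.E43.Count

set_option autoImplicit false

/-! # Truncated counting -/

namespace Pool.Agent.Helper50.CX

open Finset
open scoped BigOperators

variable {ι : Type*} [Fintype ι] [DecidableEq ι]

lemma exp_fun_card (E : Finset ι) (g : ℕ → ℝ) :
    𝔼 z : ι → Bool, g ((E.filter (fun e => z e = true)).card)
      = (∑ j ∈ range (E.card + 1), (E.card.choose j : ℝ) * g j) / 2 ^ E.card := by
  classical
  set m : (ι → Bool) → ℕ := fun z => (E.filter (fun e => z e = true)).card with hm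
  set N := E.card with hN
  have hmle : ∀ z, m z ∈ range (N + 1) := fun z =>
    mem_range.2 (Nat.lt_succ_of_le (card_le_card (filter_subset _ _)))
  set p : ℕ → ℝ := fun j => 𝔼 z : ι → Bool, if m z = j then (1 : ℝ) else 0 with hp
  have h1 : ∀ g : ℕ → ℝ, 𝔼 z : ι → Bool, g (m z) = ∑ j ∈ range (N + 1), p j * g j := by
    intro g
    have h2 : ∀ z, g (m z) = ∑ j ∈ range (N + 1), (if m z = j then (1 : ℝ) else 0) * g j := by
      intro z
      rw [sum_eq_single (m z)]
      · simp
      · intro j _ hj; rw [if_neg (Ne.symm hj), zero_mul]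
      · intro h; exact absurd (hmle z) h
    calc 𝔼 z : ι → Bool, g (m z)
        = 𝔼 z : ι → Bool, ∑ j ∈ range (N + 1), (if m z = j then (1 : ℝ) else 0) * g j :=
          Finset.expect_congr rfl fun z _ => h2 z
      _ = ∑ j ∈ range (N + 1), 𝔼 z : ι → Bool, (if m z = j then (1 : ℝ) else 0) * g j := by
          rw [Finset.expect_sum_comm]
      _ = _ := by
          refine sum_congr rfl fun j _ => ?_
          rw [hp, Finset.expect_mul]
  have h3 : (∑ j ∈ range (N + 1), Polynomial.C (p j) * Polynomial.X ^ j : Polynomial ℝ)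
      = Polynomial.C ((1 / 2) ^ N) * (1 + Polynomial.X) ^ N := by
    apply Polynomial.funext
    intro q
    rw [Polynomial.eval_finsetSum]
    simp only [Polynomial.eval_mul, Polynomial.eval_C, Polynomial.eval_pow, Polynomial.eval_X,
      Polynomial.eval_add, Polynomial.eval_one]
    rw [← h1 (fun j => q ^ j), Helper75.E43.exp_pow_card, ← mul_pow]
    congr 1; ring
  have h4 : ∀ j ∈ range (N + 1), p j = (1 / 2) ^ N * (N.choose j : ℝ) := by
    intro j hj
    have h5 := congrArg (fun P => Polynomial.coeff P j) h3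
    simp only [Polynomial.finsetSum_coeff, Polynomial.coeff_C_mul, Polynomial.coeff_X_pow,
      Polynomial.coeff_one_add_X_pow] at h5
    rw [sum_eq_single j] at h5
    · simpa using h5
    · intro i _ hi; rw [if_neg (Ne.symm hi), mul_zero]
    · intro h; exact absurd hj h
  rw [h1 g, sum_div]
  refine sum_congr rfl fun j hj => ?_
  rw [h4 j hj, one_div, inv_pow]
  field_simp

/-- the truncation moments of the binomial distribution with 15 trials -/
noncomputable def tau (s : ℕ) : ℝ :=
  (∑ j ∈ range 16, ((Nat.choose 15 j : ℕ) : ℝ) * max ((s : ℝ) - j) 0) / 2 ^ 15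

lemma exp_tau (E : Finset ι) (hE : E.card = 15) (s : ℕ) :
    𝔼 z : ι → Bool, max ((s : ℝ) - ((E.filter (fun e => z e = true)).card : ℝ)) 0 = tau s := by
  rw [exp_fun_card E (fun j => max ((s : ℝ) - (j : ℝ)) 0), hE]
  rfl

/-- **Truncated counting for one side.** -/
theorem count_trunc (E : Finset ι) (hE : E.card = 15)
    (f : (ι → Bool) → ℝ) (hf0 : ∀ z, 0 ≤ f z) (hf1 : ∀ z, f z ≤ 1) (x y : ℝ)
    (hx : 0 ≤ x) (he : 𝔼 z, max (f z - x) 0 ≤ y * 𝔼 z, f z) (s s' : ℕ) (hs : s' ≤ s) :
    ((s : ℝ) - (s - s') * y) * (𝔼 z, f z) - x * tau s - tau s' ≤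
      𝔼 z, f z * ((E.filter (fun e => z e = true)).card : ℝ) := by
  set m : (ι → Bool) → ℝ := fun z => ((E.filter (fun e => z e = true)).card : ℝ) with hm
  have key : ∀ (p cap m s : ℝ), 0 ≤ p → p ≤ cap → s * p - cap * max (s - m) 0 ≤ p * m := by
    intro p cap m s hp hc
    have h1 : (s - m) ≤ max (s - m) 0 := le_max_left _ _
    have h2 : 0 ≤ max (s - m) 0 := le_max_right _ _
    nlinarith
  have h1 : ∀ z, (s : ℝ) * (f z) - ((s : ℝ) - s') * max (f z - x) 0 - x * max ((s : ℝ) - m z) 0
      - max ((s' : ℝ) - m z) 0 ≤ f z * m z := by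
    intro z
    have hsplit : min (f z) x + max (f z - x) 0 = f z := by
      rcases le_total (f z) x with h | h
      · rw [min_eq_left h, max_eq_right (by linarith)]; ring
      · rw [min_eq_right h, max_eq_left (by linarith)]; ring
    have k1 := key (min (f z) x) x (m z) s (le_min (hf0 z) hx) (min_le_right _ _)
    have k2 := key (max (f z - x) 0) 1 (m z) s' (le_max_right _ _)
      (max_le (by linarith [hf1 z]) zero_le_one)
    have h3 : f z * m z = min (f z) x * m z + max (f z - x) 0 * m z := by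
      rw [← add_mul, hsplit]
    have h4 : min (f z) x = f z - max (f z - x) 0 := by linarith
    rw [h3]
    have h5 : (s : ℝ) * min (f z) x = s * f z - s * max (f z - x) 0 := by rw [h4]; ring
    linarith
  have h2 := Finset.expect_le_expect (s := univ) (fun z (_ : z ∈ univ) => h1 z)
  rw [Finset.expect_sub_distrib, Finset.expect_sub_distrib, Finset.expect_sub_distrib,
    ← Finset.mul_expect, ← Finset.mul_expect, ← Finset.mul_expect, exp_tau E hE, exp_tau E hE] at h2
  have h6 : (0 : ℝ) ≤ (s : ℝ) - s' := by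
    have : (s' : ℝ) ≤ s := by exact_mod_cast hs
    linarith
  have h7 := mul_le_mul_of_nonneg_left he h6
  nlinarith

lemma tau_vals : tau 0 = 0 ∧ tau 1 = 1 / 32768 ∧ tau 2 = 17 / 32768 ∧ tau 3 = 138 / 32768 ∧
    tau 4 = 714 / 32768 ∧ tau 5 = 2655 / 32768 ∧ tau 6 = 7599 / 32768 ∧ tau 7 = 17548 / 32768 ∧
    tau 8 = 33932 / 32768 ∧ tau 9 = 56751 / 32768 := by
  refine ⟨?_, ?_, ?_, ?_, ?_, ?_, ?_, ?_, ?_, ?_⟩ <;>
  · unfold tau
    norm_num [sum_range_succ, Nat.choose]

end Pool.Agent.Helper50.CX
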