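import Mathlib
import Pool.Agent.Helper75.E43.Contra
import Pool.Agent.Helper50.CX.Cnt

set_option autoImplicit false

/-! # Three colours and seven vertices: the contradiction at one vertex -/

namespace Pool.Agent.Helper50.CX

open Finset
open scoped BigOperators
open Pool.Agent.Helper41.PX

/-- one box of parameters -/
lemma box (S S' T T' ts ts' tt tt' c c1 c2 d1 d2 D1 D2 : ℝ)
    (hc0 : 0 < c1) (h1 : c1 ≤ c) (h2 : c ≤ c2) (h3 : c2 ≤ 1 / 2)
    (hd0 : 0 < d1) (hd1 : d1 ≤ D1) (hd2 : D1 ≤ d2) (hdd : d1 < d2) (hD2 : 0 ≤ D2)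
    (hD : D1 * D2 ≤ 4096 * (c ^ 3 * (1 - c) ^ 3)) (hS : S' ≤ S) (hT : T' ≤ T)
    (p1 : 0 ≤ ts) (p2 : 0 ≤ ts') (p3 : 0 ≤ tt) (p4 : 0 ≤ tt')
    (q1 : (ts + ts' / c1 ^ 3) * d1 ^ 2
      - (S - (S - S') * (1 - c1) ^ 3 + T - (T - T') * c2 ^ 3 - 7.05) * d1
      + (tt + tt' / (1 - c2) ^ 3) * (4096 * (c2 ^ 3 * (1 - c2) ^ 3)) < 0)
    (q2 : (ts + ts' / c1 ^ 3) * d2 ^ 2
      - (S - (S - S') * (1 - c1) ^ 3 + T - (T - T') * c2 ^ 3 - 7.05) * d2
      + (tt + tt' / (1 - c2) ^ 3) * (4096 * (c2 ^ 3 * (1 - c2) ^ 3)) < 0) :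
    7.05 < S - (S - S') * (1 - c) ^ 3 + T - (T - T') * c ^ 3
      - (D1 * ts + D1 / c ^ 3 * ts') - (D2 * tt + D2 / (1 - c) ^ 3 * tt') := by
  have hc : 0 < c := by linarith
  have hc' : 0 < 1 - c := by linarith
  have hc2' : 0 < 1 - c2 := by linarith
  have x1 : c1 ^ 3 ≤ c ^ 3 := pow_le_pow_left₀ hc0.le h1 3
  have x2 : c ^ 3 ≤ c2 ^ 3 := pow_le_pow_left₀ hc.le h2 3
  have y1 : (1 - c) ^ 3 ≤ (1 - c1) ^ 3 := pow_le_pow_left₀ hc'.le (by linarith) 3
  have y2 : (1 - c2) ^ 3 ≤ (1 - c) ^ 3 := pow_le_pow_left₀ hc2'.le (by linarith) 3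
  have hP : c ^ 3 * (1 - c) ^ 3 ≤ c2 ^ 3 * (1 - c2) ^ 3 := by
    rw [← mul_pow, ← mul_pow]
    refine pow_le_pow_left₀ (by positivity) ?_ 3
    nlinarith
  set R := S - (S - S') * (1 - c1) ^ 3 + T - (T - T') * c2 ^ 3 - 7.05 with hR
  set a := ts + ts' / c1 ^ 3 with ha
  set b := tt + tt' / (1 - c2) ^ 3 with hb
  set Q := 4096 * (c2 ^ 3 * (1 - c2) ^ 3) with hQ
  have ha0 : 0 ≤ a := by positivity
  have hb0 : 0 ≤ b := by positivity
  have hD1 : 0 < D1 := by linarith
  have e1 : D1 * ts + D1 / c ^ 3 * ts' ≤ a * D1 := by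
    have : D1 / c ^ 3 ≤ D1 / c1 ^ 3 := div_le_div_of_nonneg_left hD1.le (by positivity) x1
    have h4 : D1 / c ^ 3 * ts' ≤ D1 / c1 ^ 3 * ts' := mul_le_mul_of_nonneg_right this p2
    have h5 : a * D1 = D1 * ts + D1 / c1 ^ 3 * ts' := by rw [ha]; ring
    linarith
  have e2 : D2 * tt + D2 / (1 - c) ^ 3 * tt' ≤ b * D2 := by
    have : D2 / (1 - c) ^ 3 ≤ D2 / (1 - c2) ^ 3 :=
      div_le_div_of_nonneg_left hD2 (by positivity) y2
    have h4 : D2 / (1 - c) ^ 3 * tt' ≤ D2 / (1 - c2) ^ 3 * tt' :=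
      mul_le_mul_of_nonneg_right this p4
    have h5 : b * D2 = D2 * tt + D2 / (1 - c2) ^ 3 * tt' := by rw [hb]; ring
    linarith
  have e3 : a * D1 ^ 2 - R * D1 + b * Q < 0 := by
    have h4 : (d2 - d1) * (a * D1 ^ 2 - R * D1 + b * Q)
        = (d2 - D1) * (a * d1 ^ 2 - R * d1 + b * Q) + (D1 - d1) * (a * d2 ^ 2 - R * d2 + b * Q)
          - a * ((D1 - d1) * (d2 - D1) * (d2 - d1)) := by ring
    have h5 : 0 ≤ a * ((D1 - d1) * (d2 - D1) * (d2 - d1)) :=
      mul_nonneg ha0 (mul_nonneg (mul_nonneg (by linarith) (by linarith)) (by linarith))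
    have h6 : (d2 - D1) * (a * d1 ^ 2 - R * d1 + b * Q)
        + (D1 - d1) * (a * d2 ^ 2 - R * d2 + b * Q) < 0 := by
      rcases hd1.lt_or_eq with h | h
      · have k1 : (D1 - d1) * (a * d2 ^ 2 - R * d2 + b * Q) < 0 :=
          mul_neg_of_pos_of_neg (by linarith) q2
        have k2 : (d2 - D1) * (a * d1 ^ 2 - R * d1 + b * Q) ≤ 0 :=
          mul_nonpos_of_nonneg_of_nonpos (by linarith) q1.le
        linarith
      · rw [← h, sub_self, zero_mul, add_zero]
        exact mul_neg_of_pos_of_neg (by linarith) q1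
    by_contra hcon
    have h7 := mul_nonneg (show (0:ℝ) ≤ d2 - d1 by linarith) (not_lt.1 hcon)
    linarith
  have e4 : a * D1 + b * D2 < R := by
    have h4 : D1 * (a * D1 + b * D2) < D1 * R := by
      have h5 : b * (D1 * D2) ≤ b * Q :=
        mul_le_mul_of_nonneg_left (hD.trans (by rw [hQ]; linarith)) hb0
      nlinarith
    exact lt_of_mul_lt_mul_left h4 hD1.le
  have e5 : R + 7.05 ≤ S - (S - S') * (1 - c) ^ 3 + T - (T - T') * c ^ 3 := by
    have k1 := mul_le_mul_of_nonneg_left y1 (show 0 ≤ S - S' by linarith)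
    have k2 := mul_le_mul_of_nonneg_left x2 (show 0 ≤ T - T' by linarith)
    rw [hR]; linarith
  linarith

/-- all boxes -/
lemma boxes (c D1 D2 : ℝ) (h1 : 0.3217 ≤ c) (h2 : c ≤ 1 / 2) (hD1 : 1 - (1 - c) ^ 3 ≤ D1)
    (hD2 : 1 - c ^ 3 ≤ D2) (hD : D1 * D2 ≤ 4096 * (c ^ 3 * (1 - c) ^ 3))
    (key : ∀ s s' t t' : ℕ, s' ≤ s → t' ≤ t →
      (s : ℝ) - (s - s') * (1 - c) ^ 3 + t - (t - t') * c ^ 3
      - (D1 * tau s + D1 / c ^ 3 * tau s') - (D2 * tau t + D2 / (1 - c) ^ 3 * tau t') ≤ 7.05) :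
    False := by
  obtain ⟨t0, t1, t2, t3, t4, t5, t6, t7, t8, t9⟩ := tau_vals
  have hc3 : c ^ 3 ≤ (1 / 2) ^ 3 := pow_le_pow_left₀ (by linarith) h2 3
  have hD2p : 0 < D2 := by norm_num at hc3; linarith
  rcases le_total c 0.43 with hc | hc
  · have l1 : 0.687 ≤ D1 := by
      have : (1 - c) ^ 3 ≤ (1 - 0.3217) ^ 3 := pow_le_pow_left₀ (by linarith) (by linarith) 3
      norm_num at this ⊢
      linarith
    have l2 : D1 ≤ 65.6 := by
      have k1 : c ^ 3 ≤ 0.43 ^ 3 := pow_le_pow_left₀ (by linarith) hc 3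
      have k2 : c ^ 3 * (1 - c) ^ 3 ≤ (0.43 * 0.57) ^ 3 := by
        rw [← mul_pow]
        refine pow_le_pow_left₀ (mul_nonneg (by linarith) (by linarith)) ?_ 3
        nlinarith
      have k3 : D1 * (1 - 0.43 ^ 3) ≤ 4096 * (0.43 * 0.57) ^ 3 := by
        have k4 : D1 * (1 - 0.43 ^ 3) ≤ D1 * D2 :=
          mul_le_mul_of_nonneg_left (by linarith) (by linarith)
        linarith
      norm_num at k3 ⊢
      linarith
    rcases le_total D1 3.05 with h | h
    · have k := key 7 3 4 1 (by norm_num) (by norm_num)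
      rw [t7, t3, t4, t1] at k
      have := box 7 3 4 1 (17548 / 32768) (138 / 32768) (714 / 32768) (1 / 32768) c 0.3217 0.43
        0.687 3.05 D1 D2 (by norm_num) h1 hc (by norm_num) (by norm_num) l1 h (by norm_num)
        hD2p.le hD (by norm_num) (by norm_num) (by norm_num) (by norm_num) (by norm_num)
        (by norm_num) (by norm_num) (by norm_num)
      push_cast at k
      linarith
    rcases le_total D1 7.05 with h' | h'
    · have k := key 6 2 5 2 (by norm_num) (by norm_num)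
      rw [t6, t2, t5] at k
      have := box 6 2 5 2 (7599 / 32768) (17 / 32768) (2655 / 32768) (17 / 32768) c 0.3217 0.43
        3.05 7.05 D1 D2 (by norm_num) h1 hc (by norm_num) (by norm_num) h h' (by norm_num)
        hD2p.le hD (by norm_num) (by norm_num) (by norm_num) (by norm_num) (by norm_num)
        (by norm_num) (by norm_num) (by norm_num)
      push_cast at k
      linarith
    rcases le_total D1 24.3 with h'' | h''
    · have k := key 4 2 5 3 (by norm_num) (by norm_num)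
      rw [t4, t2, t5, t3] at k
      have := box 4 2 5 3 (714 / 32768) (17 / 32768) (2655 / 32768) (138 / 32768) c 0.3217 0.43
        7.05 24.3 D1 D2 (by norm_num) h1 hc (by norm_num) (by norm_num) h' h'' (by norm_num)
        hD2p.le hD (by norm_num) (by norm_num) (by norm_num) (by norm_num) (by norm_num)
        (by norm_num) (by norm_num) (by norm_num)
      push_cast at k
      linarith
    · have k := key 3 1 8 3 (by norm_num) (by norm_num)
      rw [t3, t1, t8] at k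
      have := box 3 1 8 3 (138 / 32768) (1 / 32768) (33932 / 32768) (138 / 32768) c 0.3217 0.43
        24.3 65.6 D1 D2 (by norm_num) h1 hc (by norm_num) (by norm_num) h'' l2 (by norm_num)
        hD2p.le hD (by norm_num) (by norm_num) (by norm_num) (by norm_num) (by norm_num)
        (by norm_num) (by norm_num) (by norm_num)
      push_cast at k
      linarith
  · have l1 : 0.814 ≤ D1 := by
      have : (1 - c) ^ 3 ≤ (1 - 0.43) ^ 3 := pow_le_pow_left₀ (by linarith) (by linarith) 3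
      norm_num at this ⊢
      linarith
    have l2 : D1 ≤ 73.2 := by
      have k2 : c ^ 3 * (1 - c) ^ 3 ≤ (1 / 4) ^ 3 := by
        rw [← mul_pow]
        refine pow_le_pow_left₀ (mul_nonneg (by linarith) (by linarith)) ?_ 3
        nlinarith
      have k3 : D1 * (1 - (1 / 2) ^ 3) ≤ 4096 * (1 / 4) ^ 3 := by
        have k4 : D1 * (1 - (1 / 2) ^ 3) ≤ D1 * D2 :=
          mul_le_mul_of_nonneg_left (by linarith) (by linarith)
        linarith
      norm_num at k3 ⊢
      linarith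
    rcases le_total D1 6.25 with h | h
    · have k := key 6 3 4 1 (by norm_num) (by norm_num)
      rw [t6, t3, t4, t1] at k
      have := box 6 3 4 1 (7599 / 32768) (138 / 32768) (714 / 32768) (1 / 32768) c 0.43 (1 / 2)
        0.814 6.25 D1 D2 (by norm_num) hc h2 (by norm_num) (by norm_num) l1 h (by norm_num)
        hD2p.le hD (by norm_num) (by norm_num) (by norm_num) (by norm_num) (by norm_num)
        (by norm_num) (by norm_num) (by norm_num)
      push_cast at k
      linarith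
    rcases le_total D1 39.7 with h' | h'
    · have k := key 4 1 5 2 (by norm_num) (by norm_num)
      rw [t4, t1, t5, t2] at k
      have := box 4 1 5 2 (714 / 32768) (1 / 32768) (2655 / 32768) (17 / 32768) c 0.43 (1 / 2)
        6.25 39.7 D1 D2 (by norm_num) hc h2 (by norm_num) (by norm_num) h h' (by norm_num)
        hD2p.le hD (by norm_num) (by norm_num) (by norm_num) (by norm_num) (by norm_num)
        (by norm_num) (by norm_num) (by norm_num)
      push_cast at k
      linarith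
    · have k := key 3 0 9 3 (by norm_num) (by norm_num)
      rw [t3, t0, t9] at k
      have := box 3 0 9 3 (138 / 32768) 0 (56751 / 32768) (138 / 32768) c 0.43 (1 / 2)
        39.7 73.2 D1 D2 (by norm_num) hc h2 (by norm_num) (by norm_num) h' l2 (by norm_num)
        hD2p.le hD (by norm_num) (by norm_num) (by norm_num) (by norm_num) (by norm_num)
        (by norm_num) (by norm_num) (by norm_num)
      push_cast at k
      linarith

variable {V : Type*} [Fintype V] [DecidableEq V]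

lemma cap_mean (v : V) (F : Conf V → Prop) (x y : ℝ)
    (e1 : 𝔼 z, max (fm v F z - x) 0 ≤ y * mu F) : (1 - y) * mu F ≤ x := by
  have h1 : ∀ z, fm v F z - max (fm v F z - x) 0 ≤ x := by
    intro z
    have := le_max_left (fm v F z - x) 0
    linarith
  have h2 := Finset.expect_le (s := univ) univ_nonempty (fun z (_ : z ∈ univ) => h1 z)
  rw [Finset.expect_sub_distrib, exp_fm] at h2
  linarith

lemma contra7_half (S : Finset V) (v : V) (hv : v ∈ S) (hS : S.card = 7)
    (F H : Conf V → Prop) (hF : Down F) (hH : Down H) (hXY : KK 3 < mu F * mu H)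
    (c : ℝ) (hc0 : 0 < c) (hc1 : c ≤ 1 / 2)
    (win : (1 - c ^ 3) * (1 - (1 - c) ^ 3) ≤ 4 ^ 3 * (c ^ 3 * (1 - c) ^ 3))
    (e1 : 𝔼 z, max (fm v F z - c ^ 3) 0 ≤ (1 - c) ^ 3 * mu F)
    (e2 : 𝔼 z, max (fm v H z - (1 - c) ^ 3) 0 ≤ c ^ 3 * mu H)
    (hp : ∀ a ∈ S.erase v, ∀ b ∈ S.erase v, a ≠ b →
      mu (hat s(a, b) F) / mu F + mu (hat s(a, b) H) / mu H ≤ 0.94) : False := by
  classical
  have hKK : KK 3 = 1 / 4096 := by unfold KK; norm_num [Nat.choose]
  rw [hKK] at hXY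
  set X := mu F with hX
  set Y := mu H with hY
  have hX0 : 0 ≤ X := mu_nonneg F
  have hY0 : 0 ≤ Y := mu_nonneg H
  have hXp : 0 < X := by
    rcases hX0.lt_or_eq with h | h
    · exact h
    · rw [← h, zero_mul] at hXY; norm_num at hXY
  have hYp : 0 < Y := by
    rcases hY0.lt_or_eq with h | h
    · exact h
    · rw [← h, mul_zero] at hXY; norm_num at hXY
  have hc' : 0 < 1 - c := by linarith
  have hx0 : 0 < c ^ 3 := by positivity
  have hy0 : 0 < (1 - c) ^ 3 := by positivity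
  set E := edges (S.erase v) with hE
  have hEc : E.card = 15 := by
    rw [hE, Helper75.E43.card_edges, card_erase_of_mem hv, hS]; rfl
  -- the window
  have hcl : 0.3217 ≤ c := by
    by_contra hcon
    rw [not_le] at hcon
    set P := c * (1 - c) with hP
    have hP0 : 0 < P := mul_pos hc0 hc'
    have h1 : P ≤ 0.3217 * (1 - 0.3217) := by
      rw [hP]; nlinarith
    have h2 : (1 - c ^ 3) * (1 - (1 - c) ^ 3) = 3 * P + P ^ 3 := by rw [hP]; ring
    have h3 : c ^ 3 * (1 - c) ^ 3 = P ^ 3 := by rw [hP]; ring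
    rw [h2, h3] at win
    have h4 : P * (1 - 21 * P ^ 2) ≤ 0 := by nlinarith
    have h5 : 0 < 1 - 21 * P ^ 2 := by
      have : P ^ 2 ≤ (0.3217 * (1 - 0.3217)) ^ 2 := pow_le_pow_left₀ hP0.le h1 2
      norm_num at this
      linarith
    have := mul_pos hP0 h5
    linarith
  -- the sum over the edges
  have hsum : ∑ e ∈ E, (mu (hat e F) / X + mu (hat e H) / Y) ≤ 15 * 0.94 := by
    calc _ ≤ ∑ e ∈ E, (0.94 : ℝ) := by
          refine sum_le_sum fun e he => ?_
          obtain ⟨a, ha, b, hb, hab, rfl⟩ := Helper75.E43.mem_edges he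
          exact hp a ha b hb hab
      _ = _ := by rw [sum_const, nsmul_eq_mul, hEc]; norm_num
  rw [sum_add_distrib] at hsum
  have m1 := Helper75.E43.mean_edges S v F hF
  have m2 := Helper75.E43.mean_edges S v H hH
  rw [← hE] at m1 m2
  refine boxes c (c ^ 3 / X) ((1 - c) ^ 3 / Y) hcl hc1 ?_ ?_ ?_ ?_
  · rw [le_div_iff₀ hXp]
    exact cap_mean v F _ _ e1
  · rw [le_div_iff₀ hYp]
    exact cap_mean v H _ _ e2
  · rw [div_mul_div_comm, div_le_iff₀ (mul_pos hXp hYp)]
    have h1 : c ^ 3 * (1 - c) ^ 3 ≤ c ^ 3 * (1 - c) ^ 3 * (4096 * (X * Y)) :=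
      le_mul_of_one_le_right (by positivity) (by linarith)
    linarith
  · intro s s' t t' hs ht
    have c1 := count_trunc E hEc (fm v F) (fm_nonneg v F) (fm_le_one v F) (c ^ 3) ((1 - c) ^ 3)
      hx0.le (by rw [exp_fm]; exact e1) s s' hs
    have c2 := count_trunc E hEc (fm v H) (fm_nonneg v H) (fm_le_one v H) ((1 - c) ^ 3) (c ^ 3)
      hy0.le (by rw [exp_fm]; exact e2) t t' ht
    rw [exp_fm, m1, ← hX] at c1
    rw [exp_fm, m2, ← hY] at c2
    have d1 : (s : ℝ) - (s - s') * (1 - c) ^ 3 - (c ^ 3 / X * tau s + c ^ 3 / X / c ^ 3 * tau s')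
        ≤ 1 / 2 * ∑ e ∈ E, mu (hat e F) / X := by
      rw [← sum_div, ← mul_div_assoc, le_div_iff₀ hXp]
      refine Eq.trans_le ?_ c1
      field_simp
      ring
    have d2 : (t : ℝ) - (t - t') * c ^ 3
        - ((1 - c) ^ 3 / Y * tau t + (1 - c) ^ 3 / Y / (1 - c) ^ 3 * tau t')
        ≤ 1 / 2 * ∑ e ∈ E, mu (hat e H) / Y := by
      rw [← sum_div, ← mul_div_assoc, le_div_iff₀ hYp]
      refine Eq.trans_le ?_ c2
      field_simp
      ring
    linarith

theorem contra7 (S : Finset V) (v : V) (hv : v ∈ S) (hS : S.card = 7)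
    (F H : Conf V → Prop) (hF : Down F) (hH : Down H) (hXY : KK 3 < mu F * mu H)
    (c : ℝ) (hc0 : 0 < c) (hc1 : c < 1)
    (win : (1 - c ^ 3) * (1 - (1 - c) ^ 3) ≤ 4 ^ 3 * (c ^ 3 * (1 - c) ^ 3))
    (e1 : 𝔼 z, max (fm v F z - c ^ 3) 0 ≤ (1 - c) ^ 3 * mu F)
    (e2 : 𝔼 z, max (fm v H z - (1 - c) ^ 3) 0 ≤ c ^ 3 * mu H)
    (hp : ∀ a ∈ S.erase v, ∀ b ∈ S.erase v, a ≠ b →
      mu (hat s(a, b) F) / mu F + mu (hat s(a, b) H) / mu H ≤ 0.94) : False := by
  rcases le_total c (1 / 2) with h | h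
  · exact contra7_half S v hv hS F H hF hH hXY c hc0 h win e1 e2 hp
  · refine contra7_half S v hv hS H F hH hF (by rw [mul_comm]; exact hXY) (1 - c) (by linarith)
      (by linarith) ?_ ?_ ?_ ?_
    · rw [sub_sub_cancel, mul_comm (1 - (1 - c) ^ 3), mul_comm ((1 - c) ^ 3)]
      exact win
    · rw [sub_sub_cancel]; exact e2
    · rw [sub_sub_cancel]; exact e1
    · intro a ha b hb hab
      rw [add_comm]
      exact hp a ha b hb hab

end Pool.Agent.Helper50.CX
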